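import Pool.Agent.J4H12.PZ.Stm

/-!
# Project PZ (frozen statement S12949): the piece PA (second order Taylor expansion)
-/

set_option autoImplicit false

open MeasureTheory Set Filter Topology Metric
open scoped Pointwise RealInnerProductSpace ENNReal

namespace Pool.Agent.J4H36.PZ

open Pool.Agent.H638.IB Pool.Agent.J4H12.PZ

/-! ### One variable -/

/-- Second order remainder. -/
lemma taylor2 (φ φ1 φ2 : ℝ → ℝ) (K T : ℝ)
    (h1 : ∀ τ, |τ| ≤ T → HasDerivAt φ (φ1 τ) τ)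
    (h2 : ∀ τ, |τ| ≤ T → HasDerivAt φ1 (φ2 τ) τ)
    (hK : ∀ τ, |τ| ≤ T → |φ2 τ| ≤ K) :
    ∀ t, |t| ≤ T → |φ t - φ 0 - t * φ1 0| ≤ K * t ^ 2 := by
  intro t ht
  have hT : 0 ≤ T := (abs_nonneg t).trans ht
  have hK0 : 0 ≤ K := (abs_nonneg _).trans (hK 0 (by simpa using hT))
  have hconv : Convex ℝ (Icc (-|t|) |t|) := convex_Icc _ _
  have hmem : ∀ τ, τ ∈ Icc (-|t|) |t| → |τ| ≤ |t| := fun τ h => abs_le.2 h
  have h0 : (0 : ℝ) ∈ Icc (-|t|) |t| := ⟨by simp, by simp⟩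
  have htm : t ∈ Icc (-|t|) |t| := ⟨neg_abs_le t, le_abs_self t⟩
  -- bound for the first derivative
  have hb1 : ∀ τ, |τ| ≤ |t| → |φ1 τ - φ1 0| ≤ K * |t| := by
    intro τ hτ
    have := hconv.norm_image_sub_le_of_norm_hasDerivWithin_le (f := φ1) (f' := φ2) (C := K)
      (fun x hx => (h2 x ((hmem x hx).trans ht)).hasDerivWithinAt)
      (fun x hx => by simpa [Real.norm_eq_abs] using hK x ((hmem x hx).trans ht)) h0
      (abs_le.1 hτ : τ ∈ Icc (-|t|) |t|)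
    rw [Real.norm_eq_abs, Real.norm_eq_abs, sub_zero] at this
    exact this.trans (mul_le_mul_of_nonneg_left hτ hK0)
  have := hconv.norm_image_sub_le_of_norm_hasDerivWithin_le (f := fun τ => φ τ - τ * φ1 0)
    (f' := fun τ => φ1 τ - φ1 0) (C := K * |t|)
    (fun x hx => by
      have := ((h1 x ((hmem x hx).trans ht)).sub ((hasDerivAt_id x).mul_const (φ1 0)))
      exact (this.congr_deriv (by simp)).hasDerivWithinAt)
    (fun x hx => by simpa [Real.norm_eq_abs] using hb1 x (hmem x hx)) h0 htm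
  rw [Real.norm_eq_abs, Real.norm_eq_abs, sub_zero] at this
  have e : φ t - t * φ1 0 - (φ 0 - 0 * φ1 0) = φ t - φ 0 - t * φ1 0 := by ring
  rw [e] at this
  calc |φ t - φ 0 - t * φ1 0| ≤ K * |t| * |t| := this
    _ = K * t ^ 2 := by rw [mul_assoc, ← pow_two, sq_abs]

/-- Second order limit. -/
lemma limit2 (φ φ1 : ℝ → ℝ) (l : ℝ) (h1 : ∀ τ, HasDerivAt φ (φ1 τ) τ) (h2 : HasDerivAt φ1 l 0) :
    Tendsto (fun t : ℝ => t⁻¹ ^ 2 * (φ t - φ 0 - t * φ1 0)) (𝓝[≠] 0) (𝓝 (l / 2)) := by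
  have key : Tendsto (fun t : ℝ => (φ t - φ 0 - t * φ1 0) / t ^ 2) (𝓝[≠] 0) (𝓝 (l / 2)) := by
    refine HasDerivAt.lhopital_zero_nhdsNE (f' := fun t => φ1 t - φ1 0) (g' := fun t => 2 * t)
      ?_ ?_ ?_ ?_ ?_ ?_
    · refine Eventually.of_forall fun t => ?_
      have := ((h1 t).sub_const (φ 0)).sub ((hasDerivAt_id t).mul_const (φ1 0))
      exact this.congr_deriv (by simp)
    · refine Eventually.of_forall fun t => ?_
      simpa using hasDerivAt_pow 2 t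
    · filter_upwards [self_mem_nhdsWithin] with t ht
      have : t ≠ 0 := ht
      positivity
    · have hc : ContinuousAt (fun t => φ t - φ 0 - t * φ1 0) 0 :=
        (((h1 0).continuousAt.sub continuousAt_const)).sub (continuousAt_id.mul continuousAt_const)
      have := hc.tendsto
      simp only [sub_self, zero_mul] at this
      exact this.mono_left nhdsWithin_le_nhds
    · have hc : ContinuousAt (fun t : ℝ => t ^ 2) 0 := by fun_prop
      have := hc.tendsto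
      simp only [ne_eq, OfNat.ofNat_ne_zero, not_false_eq_true, zero_pow] at this
      exact this.mono_left nhdsWithin_le_nhds
    · have := (hasDerivAt_iff_tendsto_slope.1 h2).div_const 2
      refine this.congr' ?_
      filter_upwards [self_mem_nhdsWithin] with t ht
      have : t ≠ 0 := ht
      rw [slope_def_field, sub_zero]
      field_simp
  refine key.congr fun t => ?_
  rw [inv_pow, div_eq_inv_mul]

/-! ### The hyperplane -/

variable {L : ℕ}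

lemma X_shift (p t τ : ℝ) (q : ℝ × E (L + 1)) :
    X p (t + τ) q = X p t q + (-(τ * q.2 0)) • e0 L := by
  unfold X e0
  rw [smul_mk, mk_add]
  congr 1
  · ring
  · simp

lemma normX (p t : ℝ) (q : ℝ × E (L + 1)) :
    ‖X p t q‖ ^ 2 = (p * q.1 + t * q.2 0) ^ 2 + (q.1 ^ 2 + ‖q.2‖ ^ 2) := by
  unfold X
  rw [norm_mk_sq, norm_mk_sq]
  ring

lemma X_ne {p t : ℝ} {q : ℝ × E (L + 1)} (hq : q ≠ 0) : X p t q ≠ 0 := by
  intro h
  have h1 := normX p t q
  rw [h, norm_zero] at h1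
  have h2 : q.1 = 0 := by
    nlinarith [sq_nonneg (p * q.1 + t * q.2 0), sq_nonneg q.1, sq_nonneg ‖q.2‖]
  have h3 : ‖q.2‖ = 0 := by
    nlinarith [sq_nonneg (p * q.1 + t * q.2 0), sq_nonneg q.1, sq_nonneg ‖q.2‖]
  exact hq (Prod.ext h2 (norm_eq_zero.1 h3))

lemma s_le (z : E (L + 1)) : z 0 ^ 2 ≤ ‖z‖ ^ 2 := by
  have := PiLp.norm_apply_le z 0
  rw [Real.norm_eq_abs] at this
  rw [← sq_abs]
  exact pow_le_pow_left₀ (abs_nonneg _) this 2

lemma gd_abs (p : ℝ) (q : ℝ × E (L + 1)) : |gd p q| ≤ q.2 0 ^ 2 := by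
  unfold gd
  split_ifs
  · rw [abs_neg, abs_of_nonneg (sq_nonneg _)]
  · rw [abs_zero]; exact sq_nonneg _

lemma g_nonneg (p t : ℝ) (q : ℝ × E (L + 1)) : 0 ≤ g p t q := le_max_left _ _

/-- The square of the norm of `q`. -/
noncomputable def QQ (q : ℝ × E (L + 1)) : ℝ := q.1 ^ 2 + ‖q.2‖ ^ 2

lemma QQ_nonneg (q : ℝ × E (L + 1)) : 0 ≤ QQ q := by unfold QQ; positivity

lemma QQ_int (b : ℝ) (hb : 0 < b) : Integrable (fun q : ℝ × E (L + 1) => Real.exp (-b * QQ q)) := by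
  have h1 : Integrable (fun r : ℝ => Real.exp (-b * r ^ 2)) := integrable_exp_neg_mul_sq hb
  have h2 : Integrable (fun z : E (L + 1) => Real.exp (-b * ‖z‖ ^ 2)) := by
    have := (GaussianFourier.integrable_cexp_neg_mul_sq_norm_add (V := E (L + 1)) (b := (b : ℂ))
      (by simpa using hb) 0 0).norm
    refine this.congr (Eventually.of_forall fun z => ?_)
    simp only [inner_zero_left, zero_mul, add_zero, Complex.norm_exp]
    norm_cast
  have h3 := h1.mul_prod h2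
  refine h3.congr (Eventually.of_forall fun q => ?_)
  simp only [QQ]
  rw [← Real.exp_add]
  congr 1
  ring

/-- Derivative of `N` on the hyperplane. -/
lemma dN {N N1 N2 : E (L + 3) → ℝ} {δ C : ℝ} (hN : Nice N N1 N2 δ C) (p : ℝ)
    {q : ℝ × E (L + 1)} (hq : q ≠ 0) (t : ℝ) :
    HasDerivAt (fun t => N (X p t q)) (-(q.2 0 * N1 (X p t q))) t := by
  have h := hN.d1 _ (X_ne (p := p) (t := t) hq)
  have hin : HasDerivAt (fun t' : ℝ => -((t' - t) * q.2 0)) (-(q.2 0)) t := by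
    have := (((hasDerivAt_id t).sub_const t).mul_const (q.2 0)).neg
    exact this.congr_deriv (by simp)
  have h0 : (fun t' : ℝ => -((t' - t) * q.2 0)) t = 0 := by simp
  have hc := HasDerivAt.comp_of_eq t h hin h0.symm
  have e : ((fun τ : ℝ => N (X p t q + τ • e0 L)) ∘ fun t' : ℝ => -((t' - t) * q.2 0)) =
      fun t => N (X p t q) := by
    funext t'
    simp only [Function.comp]
    rw [← X_shift]
    congr 2
    ring
  rw [e] at hc
  exact hc.congr_deriv (by ring)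

lemma dN1 {N N1 N2 : E (L + 3) → ℝ} {δ C : ℝ} (hN : Nice N N1 N2 δ C) (p : ℝ)
    {q : ℝ × E (L + 1)} (hq : q ≠ 0) (t : ℝ) :
    HasDerivAt (fun t => N1 (X p t q)) (-(q.2 0 * N2 (X p t q))) t := by
  have h := hN.d2 _ (X_ne (p := p) (t := t) hq)
  have hin : HasDerivAt (fun t' : ℝ => -((t' - t) * q.2 0)) (-(q.2 0)) t := by
    have := (((hasDerivAt_id t).sub_const t).mul_const (q.2 0)).neg
    exact this.congr_deriv (by simp)
  have h0 : (fun t' : ℝ => -((t' - t) * q.2 0)) t = 0 := by simp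
  have hc := HasDerivAt.comp_of_eq t h hin h0.symm
  have e : ((fun τ : ℝ => N1 (X p t q + τ • e0 L)) ∘ fun t' : ℝ => -((t' - t) * q.2 0)) =
      fun t => N1 (X p t q) := by
    funext t'
    simp only [Function.comp]
    rw [← X_shift]
    congr 2
    ring
  rw [e] at hc
  exact hc.congr_deriv (by ring)

/-- The logarithmic derivative. -/
noncomputable def uu (N1 : E (L + 3) → ℝ) (κ p t : ℝ) (q : ℝ × E (L + 1)) : ℝ :=
  q.2 0 * N1 (X p t q) - κ * gd p q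

lemma d_et {N N1 N2 : E (L + 3) → ℝ} {δ C : ℝ} (hN : Nice N N1 N2 δ C) (κ p : ℝ)
    {q : ℝ × E (L + 1)} (hq : q ≠ 0) (t : ℝ) :
    HasDerivAt (fun t => et N κ p t q) (et N κ p t q * uu N1 κ p t q) t := by
  have h1 := dN hN p hq t
  have h2 : HasDerivAt (fun t : ℝ => κ * (g p 0 q + t * gd p q)) (κ * gd p q) t := by
    have := (((hasDerivAt_id t).mul_const (gd p q)).const_add (g p 0 q)).const_mul κ
    simpa using this
  have h3 := ((h1.neg).sub h2).exp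
  refine HasDerivAt.congr_deriv (f := fun t => et N κ p t q) h3 ?_
  show Real.exp (-N (X p t q) - κ * (g p 0 q + t * gd p q)) * _ = _
  unfold et uu
  ring

lemma d_et2 {N N1 N2 : E (L + 3) → ℝ} {δ C : ℝ} (hN : Nice N N1 N2 δ C) (κ p : ℝ)
    {q : ℝ × E (L + 1)} (hq : q ≠ 0) (t : ℝ) :
    HasDerivAt (fun t => et N κ p t q * uu N1 κ p t q)
      (et N κ p t q * (uu N1 κ p t q ^ 2 - q.2 0 ^ 2 * N2 (X p t q))) t := by
  have h1 := d_et hN κ p hq t
  have h2 : HasDerivAt (fun t => uu N1 κ p t q) (-(q.2 0 ^ 2 * N2 (X p t q))) t := by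
    have := ((dN1 hN p hq t).const_mul (q.2 0)).sub_const (κ * gd p q)
    exact this.congr_deriv (by ring)
  have h3 := h1.mul h2
  exact h3.congr_deriv (by ring)

/-! ### Bounds -/

lemma et_le {N N1 N2 : E (L + 3) → ℝ} {δ C : ℝ} (hN : Nice N N1 N2 δ C) {κ : ℝ} (hκ : 0 ≤ κ)
    (hκδ : κ ≤ δ) (p : ℝ) {t : ℝ} (ht : |t| ≤ 1 / 2) (q : ℝ × E (L + 1)) :
    et N κ p t q ≤ Real.exp (-(δ / 2) * QQ q) := by
  unfold et
  refine Real.exp_le_exp.2 ?_
  have h1 := hN.lower (X p t q)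
  rw [normX] at h1
  have h2 := gd_abs p q
  have h3 : |t * gd p q| ≤ 1 / 2 * q.2 0 ^ 2 := by
    rw [abs_mul]
    exact mul_le_mul ht h2 (abs_nonneg _) (by norm_num)
  have h4 := neg_le_of_abs_le h3
  have h5 := g_nonneg p 0 q
  have h6 := s_le q.2
  have hδ := hN.pos
  have h7 : -(δ / 2 * ‖q.2‖ ^ 2) ≤ κ * (g p 0 q + t * gd p q) := by
    have a1 : -(1 / 2 * q.2 0 ^ 2) ≤ g p 0 q + t * gd p q := by linarith
    have a2 : κ * (-(1 / 2 * q.2 0 ^ 2)) ≤ κ * (g p 0 q + t * gd p q) :=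
      mul_le_mul_of_nonneg_left a1 hκ
    have a3 : κ * (1 / 2 * q.2 0 ^ 2) ≤ δ * (1 / 2 * ‖q.2‖ ^ 2) :=
      mul_le_mul hκδ (by linarith) (by positivity) hδ.le
    linarith
  have h8 := mul_nonneg hδ.le (sq_nonneg (p * q.1 + t * q.2 0))
  have h9 := mul_nonneg hδ.le (sq_nonneg q.1)
  unfold QQ
  nlinarith

lemma normX_le {R p t : ℝ} (hp : |p| ≤ R) (ht : |t| ≤ 1 / 2) (q : ℝ × E (L + 1)) :
    ‖X p t q‖ ^ 2 ≤ (2 * R ^ 2 + 3) * QQ q := by
  rw [normX]
  have h1 : p ^ 2 ≤ R ^ 2 := by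
    rw [← sq_abs p]; exact pow_le_pow_left₀ (abs_nonneg _) hp 2
  have h2 : t ^ 2 ≤ (1 / 2) ^ 2 := by
    rw [← sq_abs t]; exact pow_le_pow_left₀ (abs_nonneg _) ht 2
  have h3 := s_le q.2
  have h4 : (p * q.1 + t * q.2 0) ^ 2 ≤ 2 * (p * q.1) ^ 2 + 2 * (t * q.2 0) ^ 2 := by
    nlinarith [sq_nonneg (p * q.1 - t * q.2 0)]
  have h5 : (p * q.1) ^ 2 ≤ R ^ 2 * q.1 ^ 2 := by
    rw [mul_pow]; exact mul_le_mul_of_nonneg_right h1 (sq_nonneg _)
  have h6 : (t * q.2 0) ^ 2 ≤ ‖q.2‖ ^ 2 := by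
    rw [mul_pow]; nlinarith [sq_nonneg (q.2 0)]
  have h7 := mul_nonneg (sq_nonneg R) (sq_nonneg ‖q.2‖)
  unfold QQ
  nlinarith [sq_nonneg q.1]

lemma s_le_QQ (q : ℝ × E (L + 1)) : q.2 0 ^ 2 ≤ QQ q := by
  unfold QQ
  nlinarith [s_le q.2, sq_nonneg q.1]

lemma uu_sq_le {N N1 N2 : E (L + 3) → ℝ} {δ C : ℝ} (hN : Nice N N1 N2 δ C) {κ R p t : ℝ}
    (hp : |p| ≤ R) (ht : |t| ≤ 1 / 2) {q : ℝ × E (L + 1)} (hq : q ≠ 0) :
    uu N1 κ p t q ^ 2 ≤ (2 * C ^ 2 * (2 * R ^ 2 + 3) + 2 * κ ^ 2) * QQ q ^ 2 := by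
  have hs := s_le_QQ q
  have hQ := QQ_nonneg q
  have h1 := hN.b1 _ (X_ne (p := p) (t := t) hq)
  have h2 : N1 (X p t q) ^ 2 ≤ C ^ 2 * ((2 * R ^ 2 + 3) * QQ q) := by
    calc N1 (X p t q) ^ 2 = |N1 (X p t q)| ^ 2 := (sq_abs _).symm
      _ ≤ (C * ‖X p t q‖) ^ 2 := pow_le_pow_left₀ (abs_nonneg _) h1 2
      _ = C ^ 2 * ‖X p t q‖ ^ 2 := by ring
      _ ≤ _ := mul_le_mul_of_nonneg_left (normX_le hp ht q) (sq_nonneg _)
  have h3 : (q.2 0 * N1 (X p t q)) ^ 2 ≤ QQ q * (C ^ 2 * ((2 * R ^ 2 + 3) * QQ q)) := by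
    rw [mul_pow]
    exact mul_le_mul hs h2 (sq_nonneg _) hQ
  have h4 : (κ * gd p q) ^ 2 ≤ κ ^ 2 * QQ q ^ 2 := by
    rw [mul_pow]
    refine mul_le_mul_of_nonneg_left ?_ (sq_nonneg _)
    rw [← sq_abs (gd p q)]
    exact pow_le_pow_left₀ (abs_nonneg _) ((gd_abs p q).trans hs) 2
  unfold uu
  nlinarith [sq_nonneg (q.2 0 * N1 (X p t q) + κ * gd p q)]

lemma poly_exp {δ x a b c : ℝ} (hδ : 0 < δ) (hx : 0 ≤ x) (ha : 0 ≤ a) (hb : 0 ≤ b) (hc : 0 ≤ c) :
    (a * x ^ 2 + b * x + c) * Real.exp (-(δ / 2) * x) ≤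
      (a * (32 / δ ^ 2) + b * (4 / δ) + c) * Real.exp (-(δ / 4) * x) := by
  have hy : 0 ≤ δ / 4 * x := by positivity
  have h := Real.quadratic_le_exp_of_nonneg hy
  have h1 : x ^ 2 ≤ 32 / δ ^ 2 * Real.exp (δ / 4 * x) := by
    have e : 32 / δ ^ 2 * ((δ / 4 * x) ^ 2 / 2) = x ^ 2 := by
      field_simp
      ring
    calc x ^ 2 = 32 / δ ^ 2 * ((δ / 4 * x) ^ 2 / 2) := e.symm
      _ ≤ _ := mul_le_mul_of_nonneg_left (by linarith) (by positivity)
  have h2 : x ≤ 4 / δ * Real.exp (δ / 4 * x) := by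
    have e : 4 / δ * (δ / 4 * x) = x := by
      field_simp
    calc x = 4 / δ * (δ / 4 * x) := e.symm
      _ ≤ _ := mul_le_mul_of_nonneg_left (by nlinarith [sq_nonneg (δ / 4 * x)]) (by positivity)
  have h3 : 1 ≤ Real.exp (δ / 4 * x) := by nlinarith [sq_nonneg (δ / 4 * x)]
  have hE := Real.exp_pos (δ / 4 * x)
  have hsplit : Real.exp (-(δ / 2) * x) =
      Real.exp (-(δ / 4) * x) * (Real.exp (δ / 4 * x))⁻¹ := by
    rw [← Real.exp_neg, ← Real.exp_add]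
    congr 1
    ring
  rw [hsplit]
  have h4 : (a * x ^ 2 + b * x + c) / Real.exp (δ / 4 * x) ≤
      a * (32 / δ ^ 2) + b * (4 / δ) + c := by
    rw [div_le_iff₀ hE]
    have b1 := mul_le_mul_of_nonneg_left h1 ha
    have b2 := mul_le_mul_of_nonneg_left h2 hb
    have b3 := mul_le_mul_of_nonneg_left h3 hc
    nlinarith
  calc (a * x ^ 2 + b * x + c) * (Real.exp (-(δ / 4) * x) * (Real.exp (δ / 4 * x))⁻¹)
      = (a * x ^ 2 + b * x + c) / Real.exp (δ / 4 * x) * Real.exp (-(δ / 4) * x) := by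
        rw [div_eq_mul_inv]; ring
    _ ≤ _ := mul_le_mul_of_nonneg_right h4 (Real.exp_pos _).le

lemma et_zero (N N1 : E (L + 3) → ℝ) (κ p : ℝ) (q : ℝ × E (L + 1)) :
    et N κ p 0 q = ee N κ p 0 q ∧ et N κ p 0 q * uu N1 κ p 0 q = ed N N1 κ p q := by
  constructor
  · unfold et ee
    rw [zero_mul, add_zero]
  · unfold et ed uu
    rw [zero_mul, add_zero]

lemma at_zero (N N1 : E (L + 3) → ℝ) (κ p t : ℝ) :
    et N κ p t (0 : ℝ × E (L + 1)) - ee N κ p 0 0 - t * ed N N1 κ p 0 = 0 := by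
  have hX : X p t (0 : ℝ × E (L + 1)) = X p 0 0 := by unfold X; simp
  have hgd : gd p (0 : ℝ × E (L + 1)) = 0 := by unfold gd; simp
  unfold et ee ed
  rw [hX, hgd]
  simp

lemma key {N N1 N2 : E (L + 3) → ℝ} {δ C : ℝ} (hN : Nice N N1 N2 δ C) {κ : ℝ} (hκ : 0 ≤ κ)
    (hκδ : κ ≤ δ) (R : ℝ) : ∃ K : ℝ, 0 ≤ K ∧ ∀ p : ℝ, |p| ≤ R →
      (∀ t : ℝ, |t| ≤ 1 / 2 → ∀ q : ℝ × E (L + 1),
        |et N κ p t q - ee N κ p 0 q - t * ed N N1 κ p q| ≤
          K * Real.exp (-(δ / 4) * QQ q) * t ^ 2) ∧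
      ∀ q : ℝ × E (L + 1), |ed N N1 κ p q| ≤ K * Real.exp (-(δ / 4) * QQ q) := by
  have hδ := hN.pos
  have hC : 0 ≤ C := by
    have := hN.b2 (mk 1 0) (mk_one_ne _)
    exact (abs_nonneg _).trans this
  set A1 : ℝ := 2 * C ^ 2 * (2 * R ^ 2 + 3) + 2 * κ ^ 2 with hA1
  have hA1' : 0 ≤ A1 := by positivity
  refine ⟨A1 * (32 / δ ^ 2) + C * (4 / δ) + 1, by positivity, fun p hp => ⟨fun t ht q => ?_,
    fun q => ?_⟩⟩
  · by_cases hq : q = 0
    · subst hq
      rw [at_zero, abs_zero]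
      positivity
    · have hT := taylor2 (fun t => et N κ p t q) (fun t => et N κ p t q * uu N1 κ p t q)
        (fun t => et N κ p t q * (uu N1 κ p t q ^ 2 - q.2 0 ^ 2 * N2 (X p t q)))
        ((A1 * (32 / δ ^ 2) + C * (4 / δ) + 1) * Real.exp (-(δ / 4) * QQ q)) (1 / 2)
        (fun τ _ => d_et hN κ p hq τ) (fun τ _ => d_et2 hN κ p hq τ) (fun τ hτ => ?_) t ht
      · beta_reduce at hT
        rw [(et_zero N N1 κ p q).2, (et_zero N N1 κ p q).1] at hT
        exact hT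
      · have e1 := et_le hN hκ hκδ p hτ q
        have e0 : 0 ≤ et N κ p τ q := (Real.exp_pos _).le
        have u1 := uu_sq_le (κ := κ) hN hp hτ hq
        have hQ := QQ_nonneg q
        have n1 : |q.2 0 ^ 2 * N2 (X p τ q)| ≤ QQ q * C := by
          rw [abs_mul, abs_of_nonneg (sq_nonneg (q.2 0))]
          exact mul_le_mul (s_le_QQ q) (hN.b2 _ (X_ne hq)) (abs_nonneg _) hQ
        have n2 : |uu N1 κ p τ q ^ 2 - q.2 0 ^ 2 * N2 (X p τ q)| ≤
            A1 * QQ q ^ 2 + C * QQ q + 1 := by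
          have := abs_sub (uu N1 κ p τ q ^ 2) (q.2 0 ^ 2 * N2 (X p τ q))
          rw [abs_of_nonneg (sq_nonneg (uu N1 κ p τ q))] at this
          linarith
        rw [abs_mul, abs_of_nonneg e0]
        calc et N κ p τ q * |uu N1 κ p τ q ^ 2 - q.2 0 ^ 2 * N2 (X p τ q)|
            ≤ Real.exp (-(δ / 2) * QQ q) * (A1 * QQ q ^ 2 + C * QQ q + 1) :=
              mul_le_mul e1 n2 (abs_nonneg _) (Real.exp_pos _).le
          _ = (A1 * QQ q ^ 2 + C * QQ q + 1) * Real.exp (-(δ / 2) * QQ q) := mul_comm _ _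
          _ ≤ _ := poly_exp hδ hQ hA1' hC zero_le_one
  · by_cases hq : q = 0
    · subst hq
      have hgd : gd p (0 : ℝ × E (L + 1)) = 0 := by unfold gd; simp
      have : ed N N1 κ p (0 : ℝ × E (L + 1)) = 0 := by
        unfold ed
        rw [hgd]
        simp
      rw [this, abs_zero]
      positivity
    · have h12 : |(0 : ℝ)| ≤ 1 / 2 := by simp
      have e1 := et_le hN hκ hκδ p h12 q
      have e0 : 0 ≤ et N κ p 0 q := (Real.exp_pos _).le
      have u1 := uu_sq_le (κ := κ) hN hp h12 hq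
      have hQ := QQ_nonneg q
      have n2 : |uu N1 κ p 0 q| ≤ A1 * QQ q ^ 2 + C * QQ q + 1 := by
        have h1 : |uu N1 κ p 0 q| ≤ uu N1 κ p 0 q ^ 2 + 1 := by
          rw [← sq_abs (uu N1 κ p 0 q)]
          nlinarith [sq_nonneg (|uu N1 κ p 0 q| - 1), abs_nonneg (uu N1 κ p 0 q)]
        have h2 : 0 ≤ C * QQ q := mul_nonneg hC hQ
        linarith
      rw [← (et_zero N N1 κ p q).2, abs_mul, abs_of_nonneg e0]
      calc et N κ p 0 q * |uu N1 κ p 0 q|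
          ≤ Real.exp (-(δ / 2) * QQ q) * (A1 * QQ q ^ 2 + C * QQ q + 1) :=
            mul_le_mul e1 n2 (abs_nonneg _) (Real.exp_pos _).le
        _ = (A1 * QQ q ^ 2 + C * QQ q + 1) * Real.exp (-(δ / 2) * QQ q) := mul_comm _ _
        _ ≤ _ := poly_exp hδ hQ hA1' hC zero_le_one

theorem t_PA (hI : S_INT) : S_PA := by
  intro L N N1 N2 δ C hN κ hκ hκδ
  obtain ⟨i1, i2, i3, -⟩ := hI L N N1 N2 δ C hN κ hκ hκδ
  have hδ := hN.pos
  have hb : Integrable (fun q : ℝ × E (L + 1) => Real.exp (-(δ / 4) * QQ q)) :=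
    QQ_int (δ / 4) (by positivity)
  refine ⟨fun p => ?_, fun R => ?_, fun R => ?_⟩
  · obtain ⟨K, hK0, hK⟩ := key (L := L) hN hκ hκδ |p|
    have hK1 := (hK p le_rfl).1
    have hev : ∀ᶠ t : ℝ in 𝓝[≠] 0, |t| ≤ 1 / 2 := by
      filter_upwards [mem_nhdsWithin_of_mem_nhds
        (Metric.ball_mem_nhds (0 : ℝ) (by norm_num : (0 : ℝ) < 1 / 2))] with t ht
      have : |t| < 1 / 2 := by simpa [Real.dist_eq] using ht
      exact this.le
    refine ⟨∫ q : ℝ × E (L + 1),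
      et N κ p 0 q * (uu N1 κ p 0 q ^ 2 - q.2 0 ^ 2 * N2 (X p 0 q)) / 2, ?_⟩
    have hT := tendsto_integral_filter_of_dominated_convergence (μ := volume)
      (F := fun (t : ℝ) (q : ℝ × E (L + 1)) =>
        t⁻¹ ^ 2 * (et N κ p t q - ee N κ p 0 q - t * ed N N1 κ p q))
      (f := fun q : ℝ × E (L + 1) =>
        et N κ p 0 q * (uu N1 κ p 0 q ^ 2 - q.2 0 ^ 2 * N2 (X p 0 q)) / 2)
      (l := 𝓝[≠] (0 : ℝ)) (bound := fun q => K * Real.exp (-(δ / 4) * QQ q)) ?_ ?_ ?_ ?_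
    · simpa only [integral_const_mul] using hT
    · filter_upwards [hev] with t ht
      have hκt : κ * |t| ≤ δ / 2 := by
        calc κ * |t| ≤ δ * (1 / 2) := mul_le_mul hκδ ht (abs_nonneg _) hδ.le
          _ = δ / 2 := by ring
      exact (((i2 p t hκt).sub (i1 p 0)).sub ((i3 p).const_mul t)).const_mul
        (t⁻¹ ^ 2) |>.aestronglyMeasurable
    · filter_upwards [hev, self_mem_nhdsWithin] with t ht ht0
      have ht0' : t ≠ 0 := ht0
      refine Eventually.of_forall fun q => ?_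
      rw [Real.norm_eq_abs, abs_mul, abs_of_nonneg (by positivity : (0 : ℝ) ≤ t⁻¹ ^ 2)]
      calc t⁻¹ ^ 2 * |et N κ p t q - ee N κ p 0 q - t * ed N N1 κ p q|
          ≤ t⁻¹ ^ 2 * (K * Real.exp (-(δ / 4) * QQ q) * t ^ 2) :=
            mul_le_mul_of_nonneg_left (hK1 t ht q) (by positivity)
        _ = K * Real.exp (-(δ / 4) * QQ q) := by
            field_simp
    · exact hb.const_mul K
    · refine Eventually.of_forall fun q => ?_
      by_cases hq : q = 0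
      · subst hq
        have hgd : gd p (0 : ℝ × E (L + 1)) = 0 := by unfold gd; simp
        have e : et N κ p 0 (0 : ℝ × E (L + 1)) * (uu N1 κ p 0 (0 : ℝ × E (L + 1)) ^ 2 -
            (0 : ℝ × E (L + 1)).2 0 ^ 2 * N2 (X p 0 0)) / 2 = 0 := by
          unfold uu
          rw [hgd]
          simp
        rw [e]
        refine tendsto_const_nhds.congr fun t => ?_
        rw [at_zero, mul_zero]
      · have hl := limit2 (fun t => et N κ p t q) (fun t => et N κ p t q * uu N1 κ p t q) _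
          (fun τ => d_et hN κ p hq τ) (d_et2 hN κ p hq 0)
        beta_reduce at hl
        rw [(et_zero N N1 κ p q).2, (et_zero N N1 κ p q).1] at hl
        rw [(et_zero N N1 κ p q).1]
        exact hl
  · obtain ⟨K, hK0, hK⟩ := key (L := L) hN hκ hκδ R
    refine ⟨K * ∫ q : ℝ × E (L + 1), Real.exp (-(δ / 4) * QQ q), 1 / 2, by norm_num,
      fun p hp t ht => ?_⟩
    have h := norm_integral_le_of_norm_le (μ := volume)
      (f := fun q : ℝ × E (L + 1) => et N κ p t q - ee N κ p 0 q - t * ed N N1 κ p q)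
      ((hb.const_mul K).mul_const (t ^ 2)) (Eventually.of_forall fun q => (hK p hp).1 t ht q)
    rw [Real.norm_eq_abs, integral_mul_const, integral_const_mul] at h
    exact h
  · obtain ⟨K, hK0, hK⟩ := key (L := L) hN hκ hκδ R
    refine ⟨K * ∫ q : ℝ × E (L + 1), Real.exp (-(δ / 4) * QQ q), fun p hp => ?_⟩
    have h := norm_integral_le_of_norm_le (μ := volume)
      (f := fun q : ℝ × E (L + 1) => ed N N1 κ p q)
      (hb.const_mul K) (Eventually.of_forall fun q => (hK p hp).2 q)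
    rw [Real.norm_eq_abs, integral_const_mul] at h
    exact h

end Pool.Agent.J4H36.PZ
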