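import Pool.Agent.J4H12.PZ.Stm

/-!
# Project PZ (frozen statement S12949): the piece V5
-/

set_option autoImplicit false

open MeasureTheory Set Filter Topology Metric
open scoped Pointwise RealInnerProductSpace ENNReal

namespace Pool.Agent.J4H36.PZ

open Pool.Agent.H638.IB Pool.Agent.J4H12.PZ

/-- The compact set of parameters. -/
def TT (η : ℝ) : Set ℝ := {p | |p| ≤ 1 / η + η / 2 ∧ η / 2 ≤ |p| ∧ η / 2 ≤ |p + 1|}

lemma TT_compact (η : ℝ) : IsCompact (TT η) := by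
  refine (isCompact_Icc (a := -(1 / η + η / 2)) (b := 1 / η + η / 2)).of_isClosed_subset ?_ ?_
  · have h1 : IsClosed {p : ℝ | |p| ≤ 1 / η + η / 2} := isClosed_le (by fun_prop) (by fun_prop)
    have h2 : IsClosed {p : ℝ | η / 2 ≤ |p|} := isClosed_le (by fun_prop) (by fun_prop)
    have h3 : IsClosed {p : ℝ | η / 2 ≤ |p + 1|} := isClosed_le (by fun_prop) (by fun_prop)
    exact h1.inter (h2.inter h3)
  · intro p hp
    exact abs_le.1 hp.1

lemma isClosed_Edge (η : ℝ) : IsClosed (Edge η) := by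
  have h1 : IsClosed {y : ℝ × ℝ | |y.2| ≤ η * |y.1|} := isClosed_le (by fun_prop) (by fun_prop)
  have h2 : IsClosed {y : ℝ × ℝ | |y.1| ≤ η * |y.2|} := isClosed_le (by fun_prop) (by fun_prop)
  have h3 : IsClosed {y : ℝ × ℝ | |y.1 - y.2| ≤ η * |y.2|} :=
    isClosed_le (by fun_prop) (by fun_prop)
  exact h1.union (h2.union h3)

lemma edge_compl {η : ℝ} (hη : 0 < η) {y : ℝ × ℝ} (hy : y ∈ (Edge η)ᶜ) :
    η * |y.1| < |y.2| ∧ η * |y.2| < |y.1| ∧ η * |y.2| < |y.1 - y.2| ∧ 0 < |y.2| := by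
  have h : ¬ (|y.2| ≤ η * |y.1| ∨ |y.1| ≤ η * |y.2| ∨ |y.1 - y.2| ≤ η * |y.2|) := hy
  push Not at h
  refine ⟨h.1, h.2.1, h.2.2, ?_⟩
  exact (mul_nonneg hη.le (abs_nonneg _)).trans_lt h.1

lemma inner_bd {η t : ℝ} (hη : 0 < η) (ht : 0 < t) {y : ℝ × ℝ} (hy : y ∈ (Edge η)ᶜ)
    (hy2 : 2 * t / η ≤ |y.2|) :
    ENNReal.ofReal (t ^ 2 / 2) * ENNReal.ofReal (|y.2|⁻¹) ≤
      ∫⁻ p in TT η, ENNReal.ofReal (max (t - |y.1 + p * y.2|) 0) := by
  obtain ⟨h1, h2, h3, h4⟩ := edge_compl hη hy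
  have hy0 : y.2 ≠ 0 := abs_pos.1 h4
  set c : ℝ := -y.1 / y.2 with hc
  set w : ℝ := t / (2 * |y.2|) with hw
  have hw0 : 0 < w := by positivity
  have hw4 : w ≤ η / 4 := by
    rw [hw, div_le_iff₀ (by positivity)]
    rw [div_le_iff₀ hη] at hy2
    nlinarith
  have hca : |c| = |y.1| / |y.2| := by rw [hc, abs_div, abs_neg]
  have c1 : |c| ≤ 1 / η := by
    rw [hca, div_le_div_iff₀ h4 hη]
    nlinarith
  have c2 : η ≤ |c| := by
    rw [hca, le_div_iff₀ h4]
    exact h2.le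
  have c3 : η ≤ |c + 1| := by
    have : c + 1 = -(y.1 - y.2) / y.2 := by
      rw [hc]; field_simp; ring
    rw [this, abs_div, abs_neg, le_div_iff₀ h4]
    exact h3.le
  have hsub : Icc (c - w) (c + w) ⊆ TT η := by
    intro p hp
    have hpc : |p - c| ≤ η / 4 := by
      rw [abs_le]
      constructor
      · linarith [hp.1]
      · linarith [hp.2]
    have a1 : |p| ≤ |p - c| + |c| := by
      calc |p| = |(p - c) + c| := by ring_nf
        _ ≤ _ := abs_add_le _ _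
    have a2 : |c| ≤ |p - c| + |p| := by
      calc |c| = |-(p - c) + p| := by ring_nf
        _ ≤ |-(p - c)| + |p| := abs_add_le _ _
        _ = _ := by rw [abs_neg]
    have a3 : |c + 1| ≤ |p - c| + |p + 1| := by
      calc |c + 1| = |-(p - c) + (p + 1)| := by ring_nf
        _ ≤ |-(p - c)| + |p + 1| := abs_add_le _ _
        _ = _ := by rw [abs_neg]
    refine ⟨by linarith, by linarith, by linarith⟩
  calc ENNReal.ofReal (t ^ 2 / 2) * ENNReal.ofReal (|y.2|⁻¹)
      = ENNReal.ofReal (t / 2) * volume (Icc (c - w) (c + w)) := by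
        rw [Real.volume_Icc, ← ENNReal.ofReal_mul (by positivity),
          ← ENNReal.ofReal_mul (by positivity)]
        congr 1
        rw [hw]
        field_simp
        ring
    _ = ∫⁻ _ in Icc (c - w) (c + w), ENNReal.ofReal (t / 2) := by rw [setLIntegral_const]
    _ ≤ ∫⁻ p in Icc (c - w) (c + w), ENNReal.ofReal (max (t - |y.1 + p * y.2|) 0) := by
        refine setLIntegral_mono' measurableSet_Icc fun p hp => ENNReal.ofReal_le_ofReal ?_
        have e : y.1 + p * y.2 = (p - c) * y.2 := by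
          rw [hc]; field_simp; ring
        have hpc : |p - c| ≤ w := by
          rw [abs_le]
          constructor
          · linarith [hp.1]
          · linarith [hp.2]
        have : |y.1 + p * y.2| ≤ t / 2 := by
          rw [e, abs_mul]
          calc |p - c| * |y.2| ≤ w * |y.2| := mul_le_mul_of_nonneg_right hpc (abs_nonneg _)
            _ = t / 2 := by rw [hw]; field_simp
        exact le_max_of_le_left (by linarith)
    _ ≤ _ := lintegral_mono_set hsub

lemma slice_bd (M : Measure (ℝ × ℝ)) [IsFiniteMeasure M] {η t C₀ : ℝ} (hη : 0 < η) (ht : 0 < t)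
    (hE : ∀ p ∈ TT η, (∫ y, max (t - |y.1 + p * y.2|) 0 ∂M) ≤ C₀ * t ^ 2) :
    ∫⁻ y in (Edge η)ᶜ ∩ {y | 2 * t / η ≤ |y.2|}, ENNReal.ofReal (|y.2|⁻¹) ∂M ≤
      ENNReal.ofReal (2 * C₀) * volume (TT η) := by
  have hmT : MeasurableSet (TT η) := (TT_compact η).isClosed.measurableSet
  have hmS : MeasurableSet ((Edge η)ᶜ ∩ {y : ℝ × ℝ | 2 * t / η ≤ |y.2|}) :=
    (isClosed_Edge η).measurableSet.compl.inter
      (isClosed_le continuous_const (by fun_prop)).measurableSet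
  have hmf : Measurable (fun z : (ℝ × ℝ) × ℝ =>
      ENNReal.ofReal (max (t - |z.1.1 + z.2 * z.1.2|) 0)) := by fun_prop
  have hswap : ∫⁻ y, (∫⁻ p in TT η, ENNReal.ofReal (max (t - |y.1 + p * y.2|) 0)) ∂M =
      ∫⁻ p in TT η, (∫⁻ y, ENNReal.ofReal (max (t - |y.1 + p * y.2|) 0) ∂M) :=
    lintegral_lintegral_swap (μ := M) (ν := volume.restrict (TT η))
      (f := fun (y : ℝ × ℝ) (p : ℝ) => ENNReal.ofReal (max (t - |y.1 + p * y.2|) 0))
      hmf.aemeasurable
  have h1 : ENNReal.ofReal (t ^ 2 / 2) *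
      ∫⁻ y in (Edge η)ᶜ ∩ {y | 2 * t / η ≤ |y.2|}, ENNReal.ofReal (|y.2|⁻¹) ∂M ≤
      ENNReal.ofReal (t ^ 2 / 2) * (ENNReal.ofReal (2 * C₀) * volume (TT η)) := by
    calc ENNReal.ofReal (t ^ 2 / 2) *
        ∫⁻ y in (Edge η)ᶜ ∩ {y | 2 * t / η ≤ |y.2|}, ENNReal.ofReal (|y.2|⁻¹) ∂M
        = ∫⁻ y in (Edge η)ᶜ ∩ {y | 2 * t / η ≤ |y.2|},
            ENNReal.ofReal (t ^ 2 / 2) * ENNReal.ofReal (|y.2|⁻¹) ∂M := by
          rw [lintegral_const_mul _ (by fun_prop)]
      _ ≤ ∫⁻ y in (Edge η)ᶜ ∩ {y | 2 * t / η ≤ |y.2|},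
            (∫⁻ p in TT η, ENNReal.ofReal (max (t - |y.1 + p * y.2|) 0)) ∂M :=
          setLIntegral_mono' hmS fun y hy => inner_bd hη ht hy.1 hy.2
      _ ≤ ∫⁻ y, (∫⁻ p in TT η, ENNReal.ofReal (max (t - |y.1 + p * y.2|) 0)) ∂M :=
          setLIntegral_le_lintegral _ _
      _ = ∫⁻ p in TT η, (∫⁻ y, ENNReal.ofReal (max (t - |y.1 + p * y.2|) 0) ∂M) := hswap
      _ ≤ ∫⁻ _ in TT η, ENNReal.ofReal (C₀ * t ^ 2) := by
          refine setLIntegral_mono' hmT fun p hp => ?_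
          have hint : Integrable (fun y : ℝ × ℝ => max (t - |y.1 + p * y.2|) 0) M := by
            refine Integrable.of_bound (by fun_prop) t (Eventually.of_forall fun y => ?_)
            rw [Real.norm_eq_abs, abs_of_nonneg (le_max_right _ _)]
            exact max_le (by linarith [abs_nonneg (y.1 + p * y.2)]) ht.le
          rw [← ofReal_integral_eq_lintegral_ofReal hint
            (Eventually.of_forall fun y => le_max_right _ _)]
          exact ENNReal.ofReal_le_ofReal (hE p hp)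
      _ = ENNReal.ofReal (C₀ * t ^ 2) * volume (TT η) := setLIntegral_const _ _
      _ = _ := by
          rw [← mul_assoc, ← ENNReal.ofReal_mul (by positivity)]
          congr 2
          ring
  have hne : ENNReal.ofReal (t ^ 2 / 2) ≠ 0 := by
    rw [Ne, ENNReal.ofReal_eq_zero, not_le]
    positivity
  exact (ENNReal.mul_le_mul_iff_right hne ENNReal.ofReal_ne_top).1 h1

theorem t_V5 : S_V5 := by
  intro M hM hE η hη hη2
  have := hM
  obtain ⟨C₀, δ₀, hδ₀, hC⟩ := hE (TT η) (TT_compact η)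
    (fun h => by
      have := h.2.1
      rw [abs_zero] at this
      linarith)
    (fun h => by
      have := h.2.2
      rw [neg_add_cancel, abs_zero] at this
      linarith)
  set S : ℕ → Set (ℝ × ℝ) := fun n => (Edge η)ᶜ ∩ {y | 2 * (δ₀ / (n + 1)) / η ≤ |y.2|} with hS
  have hbd : ∀ n, ∫⁻ y in S n, ENNReal.ofReal (|y.2|⁻¹) ∂M ≤
      ENNReal.ofReal (2 * C₀) * volume (TT η) := by
    intro n
    have ht : 0 < δ₀ / ((n : ℝ) + 1) := by positivity
    have htδ : δ₀ / ((n : ℝ) + 1) ≤ δ₀ := div_le_self hδ₀.le (by linarith [n.cast_nonneg (α := ℝ)])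
    exact slice_bd M hη ht (fun p hp => hC p hp _ ht htδ)
  have hmono : Monotone S := by
    intro m n hmn y hy
    refine ⟨hy.1, ?_⟩
    show 2 * (δ₀ / ((n : ℝ) + 1)) / η ≤ |y.2|
    refine le_trans ?_ hy.2
    have : δ₀ / ((n : ℝ) + 1) ≤ δ₀ / ((m : ℝ) + 1) := by
      apply div_le_div_of_nonneg_left hδ₀.le (by positivity)
      have : (m : ℝ) ≤ n := by exact_mod_cast hmn
      linarith
    gcongr
  have hU : ⋃ n, S n = (Edge η)ᶜ := by
    refine Subset.antisymm (iUnion_subset fun n => inter_subset_left) fun y hy => ?_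
    have h4 := (edge_compl hη hy).2.2.2
    obtain ⟨n, hn⟩ := exists_nat_gt (2 * δ₀ / (η * |y.2|))
    refine mem_iUnion.2 ⟨n, hy, ?_⟩
    show 2 * (δ₀ / ((n : ℝ) + 1)) / η ≤ |y.2|
    rw [div_lt_iff₀ (by positivity)] at hn
    rw [div_le_iff₀ hη, ← mul_div_assoc, div_le_iff₀ (by positivity)]
    nlinarith [mul_pos hη h4]
  have hfin : ∫⁻ y in (Edge η)ᶜ, ENNReal.ofReal (|y.2|⁻¹) ∂M < ⊤ := by
    rw [← hU, setLIntegral_iUnion_of_directed _ hmono.directed_le]
    refine (iSup_le hbd).trans_lt ?_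
    exact ENNReal.mul_lt_top ENNReal.ofReal_lt_top (TT_compact η).measure_lt_top
  refine ⟨by fun_prop, ?_⟩
  refine lt_of_le_of_lt ?_ hfin
  refine setLIntegral_mono' (isClosed_Edge η).measurableSet.compl fun y hy => ?_
  have h4 := (edge_compl hη hy).2.2.2
  rw [← ofReal_norm, Real.norm_eq_abs, abs_of_nonneg (by positivity)]
  refine ENNReal.ofReal_le_ofReal ?_
  have : |y.2| ≤ ‖y‖ := norm_snd_le y
  exact inv_anti₀ h4 this

end Pool.Agent.J4H36.PZ
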